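import Pool.Agent.Helper41.RV.Main

/-!
# What an exception to the conjecture looks like

`f` is the Collatz map, `T n` the least `k` with `f^[k] n = 1` (if `Reach n`), `I v` the set of the `n ≥ 1` with `T (n + 1) - T n = v` (both defined).
Let `res n = 2 ^ (number of even steps) / (3 ^ (number of odd steps) * n)` be the residue of `n`.

1. If `n ∈ I v` then `(n + 1) res (n + 1) / (n res n) = 2 ^ v / 6 ^ j` for some integer `j`.
2. If `n ∈ I 1 ∪ I 6 ∪ I 16 ∪ I 3` then `n` or `n + 1` has residue at least `(4 / 3) n / (n + 1)`.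
3. If `n` is in one of these four sets and is not one of the indices `1, 2, 8, 4, 5` of the conjecture then `n`, `n + 1` have at least `400000` steps.
-/

set_option autoImplicit false

namespace Pool.Agent.Results.MP_f6cbd8_nt.LargeResidue

/-- The Collatz map. -/
def f (n : ℕ) : ℕ := if Even n then n / 2 else 3 * n + 1

/-- `T n` is defined. -/
def Reach (n : ℕ) : Prop := ∃ k : ℕ, f^[k] n = 1

/-- `T n`, the least `k` with `f^[k] n = 1`. -/
noncomputable def T (n : ℕ) : ℕ := sInf {k : ℕ | f^[k] n = 1}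

/-- `I v`: the `n ≥ 1` with `a n = T (n + 1) - T n` defined and equal to `v`. -/
def I (v : ℤ) : Set ℕ := {n | 1 ≤ n ∧ Reach n ∧ Reach (n + 1) ∧ (T (n + 1) : ℤ) - T n = v}

/-- The residue `2 ^ e / (3 ^ o * n)`, where `e` and `o` are the numbers of the even and of the odd terms among the first
`T n` terms `n, f n, ...` of the orbit. -/
noncomputable def res (n : ℕ) : ℝ :=
  2 ^ ((Finset.range (T n)).filter fun i => Even (f^[i] n)).card /
    (3 ^ ((Finset.range (T n)).filter fun i => ¬ Even (f^[i] n)).card * n)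

theorem result :
    (∀ (v : ℤ) (n : ℕ), n ∈ I v → ∃ j : ℤ, ((n : ℝ) + 1) * res (n + 1) / (n * res n) = 2 ^ v / 6 ^ j) ∧
    (∀ n : ℕ, n ∈ I 1 ∪ I 6 ∪ I 16 ∪ I 3 → 4 / 3 * (n / ((n : ℝ) + 1)) ≤ max (res n) (res (n + 1))) ∧
    (∀ n : ℕ, (n ∈ I 1 ∧ n ≠ 1) ∨ (n ∈ I 6 ∧ n ≠ 2) ∨ (n ∈ I 16 ∧ n ≠ 8) ∨ (n ∈ I 3 ∧ n ≠ 4 ∧ n ≠ 5) →
      400000 ≤ T n ∧ 400000 ≤ T (n + 1)) := by
  refine ⟨?_, ?_, ?_⟩
  · rintro v n ⟨h1, h2, h3, h4⟩
    refine ⟨(Helper41.RV.od (n + 1) : ℤ) - Helper41.RV.od n, ?_⟩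
    rw [← h4]
    exact Helper41.RV.ratio h1 h2 h3
  · intro n hn
    have key : ∀ v : ℤ, (v = 1 ∨ v = 6 ∨ v = 16 ∨ v = 3) → n ∈ I v →
        4 / 3 * (n / ((n : ℝ) + 1)) ≤ max (res n) (res (n + 1)) := by
      rintro v hv ⟨h1, h2, h3, h4⟩
      exact Helper41.RV.four_res hv h1 h2 h3 h4
    rcases hn with ((h | h) | h) | h
    · exact key 1 (by tauto) h
    · exact key 6 (by tauto) h
    · exact key 16 (by tauto) h
    · exact key 3 (by tauto) h
  · intro n hn
    have key : ∀ v : ℤ, (v = 1 ∨ v = 6 ∨ v = 16 ∨ v = 3) → n ∈ I v → ¬ Helper41.RV.Listed n v →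
        400000 ≤ T n ∧ 400000 ≤ T (n + 1) := by
      rintro v hv ⟨h1, h2⟩ hl
      exact (Helper41.RV.exceptions hv h1 h2 hl).2.2
    rcases hn with ⟨h, h'⟩ | ⟨h, h'⟩ | ⟨h, h'⟩ | ⟨h, h', h''⟩
    · exact key 1 (by tauto) h (by unfold Helper41.RV.Listed; omega)
    · exact key 6 (by tauto) h (by unfold Helper41.RV.Listed; omega)
    · exact key 16 (by tauto) h (by unfold Helper41.RV.Listed; omega)
    · exact key 3 (by tauto) h (by unfold Helper41.RV.Listed; omega)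

end Pool.Agent.Results.MP_f6cbd8_nt.LargeResidue
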