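import Pool.Agent.Helper41.RV.Main

/-!
# Consecutive Collatz step counts: almost all differences are `0`

`f` is the Collatz map, `T n` the least `k` with `f^[k] n = 1` (if `Reach n`), `I v` the set of the `n ≥ 1` with `T (n + 1) - T n = v` (both defined).

1. If `c, c' > 0`, `c + c' < 1/2` then for all `n ≤ x` up to at most `C x (log x)^(-c')` exceptions, `T` is defined and constant on the window
   `[n - exp ((log x)^c), n + exp ((log x)^c)]`, or it is defined at no point of this window.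
2. For every `c < 1/2` at most `C x (log x)^(-c)` of the `n ≤ x` are in some `I v`, `v ≠ 0`.
3. The set of the `n` for which `T n` is defined and the set `I 0` have the same natural density `p > 0`, and `p = 1` if and only if all `n ≥ 1` reach `1`.
-/

set_option autoImplicit false

namespace Pool.Agent.Results.MP_f6cbd8_nt.RareValues

open Filter Topology

/-- The Collatz map. -/
def f (n : ℕ) : ℕ := if Even n then n / 2 else 3 * n + 1

/-- `T n` is defined. -/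
def Reach (n : ℕ) : Prop := ∃ k : ℕ, f^[k] n = 1

/-- `T n`, the least `k` with `f^[k] n = 1`. -/
noncomputable def T (n : ℕ) : ℕ := sInf {k : ℕ | f^[k] n = 1}

/-- `I v`: the `n ≥ 1` with `a n = T (n + 1) - T n` defined and equal to `v`. -/
def I (v : ℤ) : Set ℕ := {n | 1 ≤ n ∧ Reach n ∧ Reach (n + 1) ∧ (T (n + 1) : ℤ) - T n = v}

/-- The number of the `1 ≤ n ≤ x` in `A`. -/
noncomputable def count (A : Set ℕ) (x : ℝ) : ℝ := ({n : ℕ | n ∈ A ∧ 1 ≤ n ∧ (n : ℝ) ≤ x}.ncard : ℝ)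

/-- `T` is defined and constant on `[n - w, n + w]`, or it is defined at no point of this interval. -/
def Flat (w : ℝ) (n : ℕ) : Prop :=
  (∀ m : ℕ, |(m : ℝ) - n| ≤ w → Reach m ∧ T m = T n) ∨ ∀ m : ℕ, |(m : ℝ) - n| ≤ w → ¬ Reach m

theorem result :
    (∀ c c' : ℝ, 0 < c → 0 < c' → c + c' < 1 / 2 → ∃ C : ℝ, 0 < C ∧ ∀ x : ℝ, 2 ≤ x →
      count {n | ¬ Flat (Real.exp (Real.log x ^ c)) n} x ≤ C * x * Real.log x ^ (-c')) ∧
    (∀ c : ℝ, 0 < c → c < 1 / 2 → ∃ C : ℝ, 0 < C ∧ ∀ x : ℝ, 2 ≤ x →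
      count {n | ∃ v : ℤ, v ≠ 0 ∧ n ∈ I v} x ≤ C * x * Real.log x ^ (-c)) ∧
    (∃ p : ℝ, 0 < p ∧ Tendsto (fun x : ℝ => count {n | Reach n} x / x) atTop (𝓝 p) ∧
      Tendsto (fun x : ℝ => count (I 0) x / x) atTop (𝓝 p) ∧ (p = 1 ↔ ∀ n : ℕ, 1 ≤ n → Reach n)) := by
  have hI : ∀ v n, n ∈ I v → 1 ≤ n ∧ n ∈ Helper41.RV.I v := fun v n h => ⟨h.1, h.2.1, h.2.2.1, h.2.2.2⟩
  refine ⟨fun c c' hc hc' hcc => Helper41.RV.window hc hc' hcc, ?_, ?_⟩
  · intro c hc hc2
    obtain ⟨C, hC, h⟩ := Helper41.RV.rare hc hc2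
    refine ⟨C, hC, fun x hx => le_trans (Helper41.RV.count_mono fun n _ _ hn => ?_) (h x hx)⟩
    obtain ⟨v, hv, hn⟩ := hn
    exact ⟨v, hv, (hI v n hn).2⟩
  · obtain ⟨p, hp, h1, h2, h3⟩ := Helper41.RV.zero_value
    refine ⟨p, hp, h1, ?_, h3⟩
    refine h2.congr fun x => ?_
    congr 1
    exact le_antisymm (Helper41.RV.count_mono fun n h1 _ hn => ⟨h1, hn⟩)
      (Helper41.RV.count_mono fun n _ _ hn => (hI 0 n hn).2)

end Pool.Agent.Results.MP_f6cbd8_nt.RareValues
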